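import Pool.Agent.X183.NZ.Fams

/-!
# Diagonal groups over commutative rings: actions with small orbits
-/

set_option autoImplicit false

open scoped Manifold ContDiff Topology
open Module

namespace Pool.Agent.X183.DF

open Pool.Agent.X183.ZM Pool.Agent.X183.NZ

theorem nonconst {n : ℕ} {TT : Submodule (ZMod 2) (Fin n → ZMod 2)}
    (h : 2 ≤ finrank (ZMod 2) TT) : ∃ S ∈ TT, ∃ a b, S a = 0 ∧ S b ≠ 0 := by
  classical
  have h5 : ∃ S ∈ TT, S ∉ Submodule.span (ZMod 2) {(1 : Fin n → ZMod 2)} := by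
    by_contra hcon
    push Not at hcon
    have h5 := Submodule.finrank_mono (show TT ≤ Submodule.span (ZMod 2) {(1 : Fin n → ZMod 2)}
      from hcon)
    have h6 := finrank_span_le_card (R := ZMod 2) ({1} : Set (Fin n → ZMod 2))
    simp only [Set.toFinset_singleton, Finset.card_singleton] at h6
    omega
  obtain ⟨S, hS, hSn⟩ := h5
  refine ⟨S, hS, ?_⟩
  by_contra hcon
  push Not at hcon
  apply hSn
  rw [Submodule.mem_span_singleton]
  by_cases h0' : ∃ a, S a = 0
  · obtain ⟨a, ha⟩ := h0'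
    refine ⟨0, ?_⟩
    funext b
    rw [zero_smul]
    exact (hcon a b ha).symm
  · push Not at h0'
    refine ⟨1, ?_⟩
    funext b
    rw [one_smul]
    have h : ∀ x : ZMod 2, x ≠ 0 → 1 = x := by decide
    exact h _ (h0' b)

section

variable {n : ℕ} {R : Type} [CommRing R]

/-- the sign patterns which are `m`-th powers of elements of `H` -/
def PA (m : ℕ) (H : Subgroup (Fin n → Rˣ)) : Submodule (ZMod 2) (Fin n → ZMod 2) where
  carrier := {S | ∃ h ∈ H, h ^ m = sg S}
  zero_mem' := ⟨1, H.one_mem, by rw [one_pow, sg_zero]⟩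
  add_mem' := by
    rintro S T ⟨h, hh, e⟩ ⟨h', hh', e'⟩
    exact ⟨h * h', H.mul_mem hh hh', by rw [mul_pow, e, e', sg_add]⟩
  smul_mem' := by
    intro c S hS
    rcases z2_cases c with rfl | rfl
    · rw [zero_smul]
      exact ⟨1, H.one_mem, by rw [one_pow, sg_zero]⟩
    · rw [one_smul]
      exact hS

theorem mem_PA {m : ℕ} {H : Subgroup (Fin n → Rˣ)} {S : Fin n → ZMod 2} :
    S ∈ PA m H ↔ ∃ h ∈ H, h ^ m = sg S := Iff.rfl

theorem PA_mem {m : ℕ} {H : Subgroup (Fin n → Rˣ)} {S : Fin n → ZMod 2} (h : S ∈ PA m H) :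
    sg S ∈ H := by
  obtain ⟨h, hh, e⟩ := h
  rw [← e]
  exact H.pow_mem hh m

theorem finrank_PA {m k : ℕ} (hroot : ∀ S : Fin n → ZMod 2, ∃ g : Fin n → Rˣ, g ^ m = sg S)
    {M : Type} (β : (Fin n → Rˣ) →* Equiv.Perm M) (x : M) [Finite (Orb β x)]
    (hc : Nat.card (Orb β x) ≤ 2 ^ k) : n ≤ finrank (ZMod 2) (PA m (St β x)) + k := by
  classical
  choose g hg using hroot
  set o : (Fin n → ZMod 2) → Orb β x := fun S => ⟨β (g S) x, ⟨_, rfl⟩⟩ with ho
  set rep : Orb β x → (Fin n → ZMod 2) := fun y => if h : ∃ S, o S = y then h.choose else 0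
    with hrep
  have hor : ∀ S, o (rep (o S)) = o S := by
    intro S
    have hex : ∃ T, o T = o S := ⟨S, rfl⟩
    have : rep (o S) = hex.choose := dif_pos hex
    rw [this]
    exact hex.choose_spec
  have hmem : ∀ S, S + rep (o S) ∈ PA m (St β x) := by
    intro S
    have h1 : β (g S) x = β (g (rep (o S))) x := (congrArg Subtype.val (hor S)).symm
    refine ⟨_, inv_mul_St h1, ?_⟩
    rw [mul_pow, inv_pow, hg, hg, sg_add]
    rw [inv_eq_of_mul_eq_one_right (sg_sq (rep (o S))), mul_comm]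
  have hinj : Function.Injective fun S : Fin n → ZMod 2 =>
      ((o S, ⟨S + rep (o S), hmem S⟩) : Orb β x × PA m (St β x)) := by
    intro S S' h
    simp only [Prod.mk.injEq, Subtype.mk.injEq] at h
    rw [h.1] at h
    exact add_right_cancel h.2
  have h1 := Nat.card_le_card_of_injective _ hinj
  rw [Nat.card_prod, Module.natCard_eq_pow_finrank (K := ZMod 2) (V := PA m (St β x)),
    Nat.card_fun, Nat.card_fin, Nat.card_zmod] at h1
  have h2 : 2 ^ n ≤ 2 ^ (finrank (ZMod 2) (PA m (St β x)) + k) := by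
    refine h1.trans ?_
    rw [pow_add, mul_comm]
    exact Nat.mul_le_mul_left _ hc
  exact (Nat.pow_le_pow_iff_right (by norm_num)).1 h2

end

/-- an operator whose `κ`-th power is `-1` -/
def Rt (κ : ℕ) : Prop :=
  ∀ (V : Type) [AddCommGroup V] [Module ℝ V] [FiniteDimensional ℝ V] (W : Submodule ℝ V)
    (T : Module.End ℝ V), W ≠ ⊥ → (∀ w ∈ W, T w ∈ W) → (∀ w ∈ W, (T ^ κ) w = -w) →
    κ ≤ finrank ℝ W

theorem rt_one : Rt 1 := by
  intro V _ _ _ W T hW _ _
  exact Nat.one_le_iff_ne_zero.2 fun h => hW (Submodule.finrank_eq_zero.1 h)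

theorem rt_two : Rt 2 := by
  intro V _ _ _ W T hW hT hTT
  refine fam_gauss.2 V W ![T] hW ?_ ?_ ?_
  · intro s w hw
    fin_cases s
    exact hT w hw
  · intro s w hw
    fin_cases s
    exact hTT w hw
  · intro s s' hss
    fin_cases s
    fin_cases s'
    exfalso
    have h : gI * gI = -(gI * gI) := hss
    rw [gI_sq, neg_neg] at h
    have h2 := congrArg (fun u : GaussianIntˣ => (u : GaussianInt).re) h
    simp at h2

variable {n : ℕ} {R : Type} [CommRing R] {d : ℕ} {M : Type} [TopologicalSpace M]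
  [T2Space M] [ConnectedSpace M] [ChartedSpace (EuclideanSpace ℝ (Fin d)) M]

/-- **A nonconstant sign pattern acts trivially.** -/
theorem sign_comm [Finite Rˣ] (h4 : ∀ u : Rˣ, u ^ 4 = 1) {κ k : ℕ} (hκ : Rt κ)
    (hroot : ∀ S : Fin n → ZMod 2, ∃ g : Fin n → Rˣ, g ^ κ = sg S)
    (hd : d < κ * (n - 1 - k)) (β : (Fin n → Rˣ) →* Equiv.Perm M)
    (hβ : ∀ g, ContMDiff (𝓡 d) (𝓡 d) 1 (β g)) {D : Subgroup (Equiv.Perm M)}
    (hM : SmallOrbit k D) (hβD : ∀ g, β g ∈ D) :
    ∃ S : Fin n → ZMod 2, (∃ a b, S a = 0 ∧ S b ≠ 0) ∧ β (sg S) = 1 := by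
  classical
  have hp : IsPGroup 2 (Fin n → Rˣ) := by
    intro g
    refine ⟨2, ?_⟩
    funext a
    exact h4 (g a)
  obtain ⟨x, hfin, hcard⟩ := exists_small hM hp β hβD
  obtain ⟨L, hL⟩ := lin_st β hβ x
  set A := PA κ (St β x) with hA
  have hAm : ∀ S : A, sg (S : Fin n → ZMod 2) ∈ St β x := fun S => PA_mem S.2
  set Z : A → Module.End ℝ (EuclideanSpace ℝ (Fin d)) :=
    fun S => L ⟨sg (S : Fin n → ZMod 2), hAm S⟩ with hZ
  have h0 : Z 0 = 1 := by
    have e : (⟨sg ((0 : A) : Fin n → ZMod 2), hAm 0⟩ : St β x) = 1 := Subtype.ext sg_zero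
    simp only [hZ]
    rw [e, map_one]
  have hadd : ∀ S T, Z (S + T) = Z S * Z T := by
    intro S T
    simp only [hZ]
    rw [← map_mul]
    congr 1
    exact Subtype.ext (sg_add _ _)
  obtain ⟨c, hc1, hc2⟩ := codim_bound' (κ := κ) Z h0 hadd (Set.range L)
    (fun S => ⟨_, rfl⟩)
    (by
      rintro S _ ⟨g, rfl⟩ w
      simp only [hZ]
      rw [← Module.End.mul_apply, ← Module.End.mul_apply, ← map_mul, ← map_mul]
      congr 2
      exact Subtype.ext (sg_central _ _))
    (by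
      rintro W hW hinv hpm ⟨S0, w0, hw0, hne0⟩
      have hneg : ∀ w ∈ W, Z S0 w = -w := by
        rcases hpm S0 with h | h
        · exact absurd (h w0 hw0) hne0
        · exact h
      obtain ⟨h, hh, he⟩ := mem_PA.1 S0.2
      refine hκ _ W (L ⟨h, hh⟩) hW (fun w hw => hinv _ ⟨_, rfl⟩ w hw) ?_
      intro w hw
      rw [← hneg w hw]
      simp only [hZ]
      rw [← map_pow]
      congr 2
      exact Subtype.ext he)
    (finrank ℝ (EuclideanSpace ℝ (Fin d))) ⊤ (by simp) (fun _ _ _ _ => Submodule.mem_top)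
  rw [finrank_top, finrank_euclideanSpace_fin] at hc2
  have h3 : c < n - 1 - k := by
    by_contra h
    push Not at h
    have := Nat.mul_le_mul_left κ h
    omega
  have h7 : n ≤ finrank (ZMod 2) A + k := finrank_PA hroot β x hcard
  set TT := (TA Z h0 hadd ⊤).map A.subtype with hTT
  have hTTf : finrank (ZMod 2) TT = finrank (ZMod 2) (TA Z h0 hadd ⊤) :=
    (LinearEquiv.finrank_eq (Submodule.equivMapOfInjective A.subtype
      (Submodule.injective_subtype _) _)).symm
  obtain ⟨S, hS, hSn⟩ := nonconst (TT := TT) (by omega)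
  obtain ⟨S', hS', rfl⟩ := Submodule.mem_map.1 hS
  refine ⟨S', hSn, ?_⟩
  have h6 : Z S' = 1 := LinearMap.ext fun w => hS' w Submodule.mem_top
  exact hL _ h6

end Pool.Agent.X183.DF
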