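import Pool.Agent.X183.DF.Quat
import Pool.Agent.X183.NZ.Fin

/-!
# Unitary groups of diagonal forms
-/

set_option autoImplicit false

open scoped Manifold ContDiff Topology Quaternion Matrix
open Module

namespace Pool.Agent.X183.DF

open Pool.Agent.X183.ZM Pool.Agent.X183.NZ

variable {n : ℕ}

/-- The group of the invertible matrices `g` over `R` with `g* A g = A`, where `A` is the diagonal
matrix with the entries `a i` and `g*` is the conjugate transpose of `g`. -/
def UG (R : Type) [Ring R] [StarRing R] (a : Fin n → ℤ) : Subgroup (Matrix (Fin n) (Fin n) R)ˣ where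
  carrier := {g | (g : Matrix (Fin n) (Fin n) R)ᴴ * Matrix.diagonal (fun i => (a i : R)) *
    (g : Matrix (Fin n) (Fin n) R) = Matrix.diagonal (fun i => (a i : R))}
  one_mem' := by
    show (((1 : (Matrix (Fin n) (Fin n) R)ˣ) : Matrix (Fin n) (Fin n) R))ᴴ * _ *
      ((1 : (Matrix (Fin n) (Fin n) R)ˣ) : Matrix (Fin n) (Fin n) R) = _
    rw [Units.val_one, Matrix.conjTranspose_one, one_mul, mul_one]
  mul_mem' := by
    intro g h hg hh
    have hg : (g : Matrix (Fin n) (Fin n) R)ᴴ * Matrix.diagonal (fun i => (a i : R)) *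
      (g : Matrix (Fin n) (Fin n) R) = Matrix.diagonal (fun i => (a i : R)) := hg
    have hh : (h : Matrix (Fin n) (Fin n) R)ᴴ * Matrix.diagonal (fun i => (a i : R)) *
      (h : Matrix (Fin n) (Fin n) R) = Matrix.diagonal (fun i => (a i : R)) := hh
    show ((g * h : (Matrix (Fin n) (Fin n) R)ˣ) : Matrix (Fin n) (Fin n) R)ᴴ * _ *
      ((g * h : (Matrix (Fin n) (Fin n) R)ˣ) : Matrix (Fin n) (Fin n) R) = _
    rw [Units.val_mul, Matrix.conjTranspose_mul]
    calc _ = (h : Matrix (Fin n) (Fin n) R)ᴴ * ((g : Matrix (Fin n) (Fin n) R)ᴴ *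
          Matrix.diagonal (fun i => (a i : R)) * (g : Matrix (Fin n) (Fin n) R)) *
          (h : Matrix (Fin n) (Fin n) R) := by simp only [Matrix.mul_assoc]
      _ = _ := by rw [hg, hh]
  inv_mem' := by
    intro g hg
    have hg : (g : Matrix (Fin n) (Fin n) R)ᴴ * Matrix.diagonal (fun i => (a i : R)) *
      (g : Matrix (Fin n) (Fin n) R) = Matrix.diagonal (fun i => (a i : R)) := hg
    have h1 : (g : Matrix (Fin n) (Fin n) R) * ((g⁻¹ : (Matrix (Fin n) (Fin n) R)ˣ) :
      Matrix (Fin n) (Fin n) R) = 1 := g.mul_inv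
    have h2 : ((g⁻¹ : (Matrix (Fin n) (Fin n) R)ˣ) : Matrix (Fin n) (Fin n) R)ᴴ *
        (g : Matrix (Fin n) (Fin n) R)ᴴ = 1 := by
      rw [← Matrix.conjTranspose_mul, h1, Matrix.conjTranspose_one]
    show ((g⁻¹ : (Matrix (Fin n) (Fin n) R)ˣ) : Matrix (Fin n) (Fin n) R)ᴴ * _ *
      ((g⁻¹ : (Matrix (Fin n) (Fin n) R)ˣ) : Matrix (Fin n) (Fin n) R) = _
    calc _ = ((g⁻¹ : (Matrix (Fin n) (Fin n) R)ˣ) : Matrix (Fin n) (Fin n) R)ᴴ *
          ((g : Matrix (Fin n) (Fin n) R)ᴴ * Matrix.diagonal (fun i => (a i : R)) *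
          (g : Matrix (Fin n) (Fin n) R)) * ((g⁻¹ : (Matrix (Fin n) (Fin n) R)ˣ) :
            Matrix (Fin n) (Fin n) R) := by rw [hg]
      _ = (((g⁻¹ : (Matrix (Fin n) (Fin n) R)ˣ) : Matrix (Fin n) (Fin n) R)ᴴ *
          (g : Matrix (Fin n) (Fin n) R)ᴴ) * Matrix.diagonal (fun i => (a i : R)) *
          ((g : Matrix (Fin n) (Fin n) R) * ((g⁻¹ : (Matrix (Fin n) (Fin n) R)ˣ) :
            Matrix (Fin n) (Fin n) R)) := by simp only [Matrix.mul_assoc]
      _ = _ := by rw [h1, h2, one_mul, mul_one]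

/-- Every normal subgroup of `Γ` which contains a matrix that is not scalar has finite index. -/
def Marg {R : Type} [Ring R] (Γ : Subgroup (Matrix (Fin n) (Fin n) R)ˣ) : Prop :=
  ∀ N : Subgroup Γ, N.Normal →
    (∃ g ∈ N, ∀ c : R, ((g : (Matrix (Fin n) (Fin n) R)ˣ) : Matrix (Fin n) (Fin n) R) ≠
      Matrix.diagonal fun _ => c) → N.index ≠ 0

/-- For every group `Γ` of invertible `n × n` matrices over `R` which contains the diagonal matrices
with unit entries, and every action `α` of `Γ` on `M` with `Adm k d α`: there is a diagonal matrix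
with entries `1` and `-1`, both of which occur, which acts trivially; and if `Γ` satisfies `Marg`, then
`α(Γ)` is finite. -/
def Collapse (k n d : ℕ) (R : Type) [Ring R] (M : Type) [TopologicalSpace M]
    [ChartedSpace (EuclideanSpace ℝ (Fin d)) M] : Prop :=
  ∀ (Γ : Subgroup (Matrix (Fin n) (Fin n) R)ˣ) (hΓ : ∀ u : Fin n → Rˣ, Dg u ∈ Γ)
    (α : Γ →* Equiv.Perm M), Adm k d α →
    (∃ S : Fin n → ZMod 2, (∃ i j, S i = 0 ∧ S j ≠ 0) ∧
      α ⟨Dg fun i => if S i = 0 then 1 else -1, hΓ _⟩ = 1) ∧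
    (Marg Γ → (Set.range α).Finite)

theorem Dg_UG {R : Type} [Ring R] [StarRing R] (hu : ∀ u : Rˣ, star (u : R) * u = 1)
    (a : Fin n → ℤ) (u : Fin n → Rˣ) : Dg u ∈ UG R a := by
  show (Matrix.diagonal fun i => (u i : R))ᴴ * Matrix.diagonal (fun i => (a i : R)) *
    (Matrix.diagonal fun i => (u i : R)) = Matrix.diagonal (fun i => (a i : R))
  rw [Matrix.diagonal_conjTranspose, Matrix.diagonal_mul_diagonal, Matrix.diagonal_mul_diagonal]
  congr 1
  funext i
  show star (u i : R) * (a i : R) * (u i : R) = (a i : R)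
  rw [← (Int.cast_commute (a i) (star (u i : R))).eq, mul_assoc, hu, mul_one]

theorem star_int (u : ℤˣ) : star (u : ℤ) * u = 1 := by
  rw [star_trivial]
  exact Int.units_coe_mul_self u

theorem star_gauss (u : GaussianIntˣ) : star (u : GaussianInt) * u = 1 := by
  have h := gauss_norm u
  apply Zsqrtd.ext
  · simp only [Zsqrtd.re_mul, Zsqrtd.re_star, Zsqrtd.im_star, Zsqrtd.re_one]
    linarith
  · simp only [Zsqrtd.im_mul, Zsqrtd.re_star, Zsqrtd.im_star, Zsqrtd.im_one]
    ring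

theorem star_quat (u : ℍ[ℤ]ˣ) : star (u : ℍ[ℤ]) * u = 1 := by
  have h := quat_norm u
  apply Quaternion.ext
  · simp
    linarith
  · simp
    ring
  · simp
    ring
  · simp
    ring

theorem range_finite {G H : Type*} [Group G] [Group H] (α : G →* H) (h : α.ker.index ≠ 0) :
    (Set.range α).Finite := by
  have h1 : Finite (G ⧸ α.ker) := Nat.finite_of_card_ne_zero h
  have h2 : Finite α.range := Finite.of_equiv _ (QuotientGroup.quotientKerEquivRange α).toEquiv
  have h3 : (Set.range α) = (α.range : Set H) := (MonoidHom.coe_range α).symm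
  rw [h3]
  exact h2

/-- from a sign pattern to the conclusion -/
theorem collapse_of {k d : ℕ} {R : Type} [Ring R] (h1 : (1 : R) ≠ -1) {M : Type}
    [TopologicalSpace M] [T2Space M] [ChartedSpace (EuclideanSpace ℝ (Fin d)) M]
    (h : ∀ (β : (Fin n → Rˣ) →* Equiv.Perm M), (∀ g, ContMDiff (𝓡 d) (𝓡 d) 1 (β g)) →
      ∀ D : Subgroup (Equiv.Perm M), SmallOrbit k D → (∀ g, β g ∈ D) →
      ∃ S : Fin n → ZMod 2, (∃ a b, S a = 0 ∧ S b ≠ 0) ∧ β (sg S) = 1) :
    Collapse k n d R M := by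
  intro Γ hΓ α hα
  obtain ⟨k1, k2⟩ := adm_small hα
  obtain ⟨S, ⟨a, b, ha, hb⟩, hS⟩ := h (α.comp ((DgHom n R).codRestrict Γ hΓ)) (fun g => k1 _)
    α.range k2 fun g => ⟨_, rfl⟩
  have hS' : α ⟨Dg (sg S), hΓ _⟩ = 1 := hS
  refine ⟨⟨S, ⟨a, b, ha, hb⟩, hS'⟩, fun hM => ?_⟩
  refine range_finite α (hM α.ker inferInstance ⟨⟨Dg (sg S), hΓ _⟩, MonoidHom.mem_ker.2 hS', ?_⟩)
  intro c hc
  have e : Matrix.diagonal (fun i => ((sg (R := R) S i : Rˣ) : R)) = Matrix.diagonal fun _ => c := hc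
  have ea := congrFun (congrFun e a) a
  have eb := congrFun (congrFun e b) b
  rw [Matrix.diagonal_apply_eq, Matrix.diagonal_apply_eq] at ea eb
  have ea' : (sg (R := R) S a : Rˣ) = 1 := if_pos ha
  have eb' : (sg (R := R) S b : Rˣ) = -1 := if_neg hb
  rw [ea', Units.val_one] at ea
  rw [eb', Units.val_neg, Units.val_one] at eb
  exact h1 (ea.trans eb.symm)

variable {k d : ℕ} {M : Type} [TopologicalSpace M] [T2Space M] [ConnectedSpace M]
  [ChartedSpace (EuclideanSpace ℝ (Fin d)) M]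

theorem final_int (hd : d < n - 1 - k) : Collapse k n d ℤ M := by
  refine collapse_of (by norm_num) fun β hβ D hD hβD => ?_
  refine sign_comm (κ := 1) (fun u => ?_) rt_one (fun S => ⟨sg S, pow_one _⟩) (by omega) β hβ hD hβD
  rcases Int.units_eq_one_or u with rfl | rfl <;> decide

theorem final_gaussian (hd : d < 2 * (n - 1 - k)) : Collapse k n d GaussianInt M := by
  refine collapse_of ?_ fun β hβ D hD hβD => ?_
  · intro h
    have h2 := congrArg Zsqrtd.re h
    simp at h2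
  refine sign_comm (κ := 2) gauss_four rt_two (fun S => ?_) hd β hβ hD hβD
  refine ⟨fun i => if S i = 0 then 1 else gI, ?_⟩
  funext i
  rw [Pi.pow_apply]
  unfold sg
  split_ifs
  · exact one_pow 2
  · rw [pow_two]
    exact gI_sq

theorem final_quaternion (hd : (k = 0 ∧ d < 4 * (n - 1)) ∨ d < 4 * (n - 1 - 4 ^ k)) :
    Collapse k n d ℍ[ℤ] M := by
  refine collapse_of ?_ fun β hβ D hD hβD => ?_
  · intro h
    have h2 := congrArg QuaternionAlgebra.re h
    simp at h2
  rcases hd with ⟨rfl, hd⟩ | hd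
  · exact sign_fix quat_four big_quat hd β hβ hD hβD
  · have hn : 1 ≤ n := by
      rcases Nat.eq_zero_or_pos n with rfl | h
      · simp at hd
      · exact h
    obtain ⟨S, hS, h1, h2⟩ := sign_fam (D0 := (⊤ : Subgroup (Fin n → ℍ[ℤ]ˣ))) quat_four
      (by norm_num) fam_quat (k := k) hn
      (by rw [← pow_mul, mul_comm k 2, pow_mul]; exact hd) (fun _ _ _ => Subgroup.mem_top _)
      (β.comp (⊤ : Subgroup (Fin n → ℍ[ℤ]ˣ)).subtype) (fun g => hβ _) hD fun g => hβD _
    exact ⟨S, h1, h2⟩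

end Pool.Agent.X183.DF
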